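import Pool.Agent.Helper1.PB.Defs

namespace Pool.Agent.Helper1.PB

/-! ### the all-vertical state -/

lemma nxt_inj {c : ℕ} {s t : Fin c} (h : nxt s = nxt t) : s = t := by
  have h1 : (s.val + 1) % c = (t.val + 1) % c := by
    have := congrArg Fin.val h
    simpa [nxt] using this
  have hs := s.isLt
  have ht := t.isLt
  apply Fin.ext
  by_cases a : s.val + 1 = c
  · by_cases b : t.val + 1 = c
    · omega
    · rw [a, Nat.mod_self, Nat.mod_eq_of_lt (by omega)] at h1
      omega
  · by_cases b : t.val + 1 = c
    · rw [b, Nat.mod_self, Nat.mod_eq_of_lt (by omega)] at h1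
      omega
    · rw [Nat.mod_eq_of_lt (by omega), Nat.mod_eq_of_lt (by omega)] at h1
      omega

lemma vert_step {n : ℕ} (w : List (Fin n)) (j : Fin (n + 1)) (t : Fin w.length) :
    Adj w (fun _ => true) (j, t) (j, nxt t) := by
  by_cases h : j = (w.get t).castSucc
  · rw [h]; exact Adj.left t rfl
  · by_cases h' : j = (w.get t).succ
    · rw [h']; exact Adj.right t rfl
    · exact Adj.pass t j h h'

lemma circles_vert {n : ℕ} (w : List (Fin n)) (hw : w ≠ []) :
    circles w (fun _ => true) = n + 1 := by
  have hc : 0 < w.length := List.length_pos_of_ne_nil hw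
  have key : ∀ (j : Fin (n + 1)) (t : ℕ) (ht : t < w.length),
      Quot.mk (Adj w (fun _ => true)) (j, ⟨0, hc⟩) = Quot.mk _ (j, ⟨t, ht⟩) := by
    intro j t
    induction t with
    | zero => intro _; rfl
    | succ t ih =>
      intro ht
      rw [ih (by omega)]
      apply Quot.sound
      have := vert_step w j ⟨t, by omega⟩
      have e : nxt (⟨t, by omega⟩ : Fin w.length) = ⟨t + 1, ht⟩ := by
        apply Fin.ext
        simp [nxt, Nat.mod_eq_of_lt ht]
      rwa [e] at this
  let f : Quot (Adj w (fun _ => true)) → Fin (n + 1) :=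
    Quot.lift (fun p => p.1) (by
      intro a b h
      cases h with
      | pass => rfl
      | left => rfl
      | right => rfl
      | cup t h => exact absurd h (by simp)
      | cap t h => exact absurd h (by simp))
  have hf : Function.Bijective f := by
    constructor
    · intro a b
      induction a using Quot.ind with
      | mk a =>
      induction b using Quot.ind with
      | mk b =>
      obtain ⟨j, t⟩ := a
      obtain ⟨j', t'⟩ := b
      intro h
      have h' : j = j' := h
      subst h'
      rw [← key j t.val t.isLt, ← key j t'.val t'.isLt]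
    · intro j
      exact ⟨Quot.mk _ (j, ⟨0, hc⟩), rfl⟩
  unfold circles
  rw [Nat.card_eq_of_bijective f hf, Nat.card_eq_fintype_card, Fintype.card_fin]

/-! ### the all-horizontal state -/

open Classical in
/-- the label of a point: the square it lies in, if any -/
noncomputable def lab {n : ℕ} (w : List (Fin n)) (S : Finset (Fin w.length))
    (p : Fin (n + 1) × Fin w.length) : Option (Fin w.length) :=
  if h : ∃ t ∈ S, p.2 = nxt t ∧ (p.1 = (w.get t).castSucc ∨ p.1 = (w.get t).succ) then
    some h.choose else none

lemma lab_some {n : ℕ} (w : List (Fin n)) (S : Finset (Fin w.length))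
    (p : Fin (n + 1) × Fin w.length) (t : Fin w.length) (ht : t ∈ S) (h2 : p.2 = nxt t)
    (h1 : p.1 = (w.get t).castSucc ∨ p.1 = (w.get t).succ) : lab w S p = some t := by
  have h : ∃ t ∈ S, p.2 = nxt t ∧ (p.1 = (w.get t).castSucc ∨ p.1 = (w.get t).succ) :=
    ⟨t, ht, h2, h1⟩
  unfold lab
  rw [dif_pos h]
  have := h.choose_spec
  congr 1
  exact nxt_inj (this.2.1.symm.trans h2)

lemma lab_none {n : ℕ} (w : List (Fin n)) (S : Finset (Fin w.length))
    (p : Fin (n + 1) × Fin w.length)
    (h : ∀ t ∈ S, p.2 = nxt t → ¬ (p.1 = (w.get t).castSucc ∨ p.1 = (w.get t).succ)) :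
    lab w S p = none := by
  unfold lab
  rw [dif_neg]
  rintro ⟨t, ht, h2, h1⟩
  exact h t ht h2 h1

lemma lab_adj {n : ℕ} (w : List (Fin n)) (S : Finset (Fin w.length))
    (hS : ∀ t ∈ S, w.get t = w.get (nxt t)) {a b : Fin (n + 1) × Fin w.length}
    (h : Adj w (fun _ => false) a b) : lab w S a = lab w S b := by
  cases h with
  | pass t j h h' =>
    rw [lab_none, lab_none]
    · intro s hs h2 h1
      simp only at h2 h1
      have : s = t := (nxt_inj h2).symm
      subst this
      rcases h1 with h1 | h1
      · exact h h1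
      · exact h' h1
    · intro s hs h2 h1
      simp only at h2 h1
      have e := hS s hs
      rw [← h2] at e
      rw [e] at h1
      rcases h1 with h1 | h1
      · exact h h1
      · exact h' h1
  | left t h => exact absurd h (by simp)
  | right t h => exact absurd h (by simp)
  | cup t h =>
    by_cases hex : ∃ s ∈ S, t = nxt s
    · obtain ⟨s, hs, e⟩ := hex
      have e' : w.get s = w.get t := by rw [hS s hs, ← e]
      rw [lab_some w S _ s hs e (Or.inl (by rw [e'])), lab_some w S _ s hs e (Or.inr (by rw [e']))]
    · rw [lab_none, lab_none]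
      · intro s hs h2 _
        exact hex ⟨s, hs, h2⟩
      · intro s hs h2 _
        exact hex ⟨s, hs, h2⟩
  | cap t h =>
    by_cases ht : t ∈ S
    · rw [lab_some w S _ t ht rfl (Or.inl rfl), lab_some w S _ t ht rfl (Or.inr rfl)]
    · rw [lab_none, lab_none]
      · intro s hs h2 _
        exact ht (by rw [nxt_inj h2]; exact hs)
      · intro s hs h2 _
        exact ht (by rw [nxt_inj h2]; exact hs)

lemma circles_horiz {n : ℕ} (w : List (Fin n)) (hw : w ≠ []) (S : Finset (Fin w.length))
    (hS : ∀ t ∈ S, w.get t = w.get (nxt t)) (hS' : ∀ t ∈ S, nxt t ∉ S) :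
    S.card + 1 ≤ circles w (fun _ => false) := by
  classical
  have hc : 0 < w.length := List.length_pos_of_ne_nil hw
  have : Finite (Quot (Adj w (fun _ => false))) :=
    Finite.of_surjective (Quot.mk _) Quot.mk_surjective
  let f : Quot (Adj w (fun _ => false)) → Option (Fin w.length) :=
    Quot.lift (lab w S) (fun a b h => lab_adj w S hS h)
  have := Fintype.ofFinite (Quot (Adj w (fun _ => false)))
  unfold circles
  rw [Nat.card_eq_fintype_card]
  have h1 : (insert none (S.map ⟨some, Option.some_injective _⟩) : Finset (Option (Fin w.length)))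
      ⊆ Finset.univ.image f := by
    intro x hx
    rw [Finset.mem_insert] at hx
    rw [Finset.mem_image]
    rcases hx with rfl | hx
    · by_cases hne : S.Nonempty
      · obtain ⟨s, hs⟩ := hne
        refine ⟨Quot.mk _ ((w.get s).castSucc, s), Finset.mem_univ _, ?_⟩
        apply lab_none
        intro r hr h2 _
        simp only at h2
        exact hS' r hr (h2 ▸ hs)
      · refine ⟨Quot.mk _ (0, ⟨0, hc⟩), Finset.mem_univ _, ?_⟩
        apply lab_none
        intro r hr
        exact absurd ⟨r, hr⟩ hne
    · rw [Finset.mem_map] at hx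
      obtain ⟨t, ht, rfl⟩ := hx
      exact ⟨Quot.mk _ ((w.get t).castSucc, nxt t), Finset.mem_univ _,
        lab_some w S _ t ht rfl (Or.inl rfl)⟩
  have h2 := Finset.card_le_card h1
  rw [Finset.card_insert_of_notMem (by simp), Finset.card_map] at h2
  exact h2.trans (Finset.card_image_le.trans (by rw [Finset.card_univ]))

end Pool.Agent.Helper1.PB
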