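import Mathlib

namespace Pool.Agent.Helper1.PB

/-- One braid relation (far commutativity or the Yang-Baxter relation) applied inside a
positive braid word on `n + 1` strands; the letter `i : Fin n` is the generator crossing the
strands in positions `i` and `i + 1`. -/
inductive BR {n : ℕ} : List (Fin n) → List (Fin n) → Prop
  | comm (u v : List (Fin n)) (i j : Fin n) (h : i.val + 1 < j.val ∨ j.val + 1 < i.val) :
      BR (u ++ i :: j :: v) (u ++ j :: i :: v)
  | yb (u v : List (Fin n)) (i j : Fin n) (h : i.val + 1 = j.val ∨ j.val + 1 = i.val) :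
      BR (u ++ i :: j :: i :: v) (u ++ j :: i :: j :: v)

/-- Equality in the positive braid monoid. -/
abbrev BEq {n : ℕ} : List (Fin n) → List (Fin n) → Prop := Relation.EqvGen BR

/-- Moves between closed positive braids: braid relations, cyclic rotation, destabilisation. -/
inductive Move : (Σ n : ℕ, List (Fin n)) → (Σ n : ℕ, List (Fin n)) → Prop
  | br {n : ℕ} {u v : List (Fin n)} (h : BR u v) : Move ⟨n, u⟩ ⟨n, v⟩
  | rot {n : ℕ} (a : Fin n) (u : List (Fin n)) : Move ⟨n, a :: u⟩ ⟨n, u ++ [a]⟩
  | destab {n : ℕ} (u : List (Fin n)) : Move ⟨n + 1, u.map Fin.castSucc ++ [Fin.last n]⟩ ⟨n, u⟩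

/-- Closed positive braids joined by such moves; they have the same closure. -/
abbrev SameLink : (Σ n : ℕ, List (Fin n)) → (Σ n : ℕ, List (Fin n)) → Prop :=
  Relation.EqvGen Move

/-- The permutation of the strands. -/
def perm {n : ℕ} (w : List (Fin n)) : Equiv.Perm (Fin (n + 1)) :=
  (w.map fun i => Equiv.swap i.castSucc i.succ).prod

/-- The closure is a knot: the permutation of the strands is transitive. -/
def IsKnot {n : ℕ} (w : List (Fin n)) : Prop :=
  ∀ x y : Fin (n + 1), ∃ k : ℕ, (perm w ^ k) x = y

/-- cyclic successor of a crossing -/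
def nxt {c : ℕ} (t : Fin c) : Fin c := ⟨(t.val + 1) % c, Nat.mod_lt _ (by have := t.isLt; omega)⟩

/-- Points of the closed braid diagram: `(j, t)` is the point of position `j` just before the
crossing number `t`. `Adj w σ` joins two points when they are joined by an arc of the Kauffman
state `σ` passing the crossing `t`: strands away from the crossing go on, and at the crossing
the smoothing is vertical (`σ t = true`) or horizontal (`σ t = false`). -/
inductive Adj {n : ℕ} (w : List (Fin n)) (σ : Fin w.length → Bool) :
    Fin (n + 1) × Fin w.length → Fin (n + 1) × Fin w.length → Prop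
  | pass (t : Fin w.length) (j : Fin (n + 1)) (h : j ≠ (w.get t).castSucc)
      (h' : j ≠ (w.get t).succ) : Adj w σ (j, t) (j, nxt t)
  | left (t : Fin w.length) (h : σ t = true) :
      Adj w σ ((w.get t).castSucc, t) ((w.get t).castSucc, nxt t)
  | right (t : Fin w.length) (h : σ t = true) :
      Adj w σ ((w.get t).succ, t) ((w.get t).succ, nxt t)
  | cup (t : Fin w.length) (h : σ t = false) :
      Adj w σ ((w.get t).castSucc, t) ((w.get t).succ, t)
  | cap (t : Fin w.length) (h : σ t = false) :
      Adj w σ ((w.get t).castSucc, nxt t) ((w.get t).succ, nxt t)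

/-- The number of circles of the state `σ`. -/
noncomputable def circles {n : ℕ} (w : List (Fin n)) (σ : Fin w.length → Bool) : ℕ :=
  Nat.card (Quot (Adj w σ))

/-- The Turaev genus of the closed braid diagram of `w`. For a positive crossing the two
smoothings of the all-`A` and the all-`B` state are the vertical and the horizontal one. -/
noncomputable def turaevGenus {n : ℕ} (w : List (Fin n)) : ℚ :=
  ((w.length : ℚ) + 2 - circles w (fun _ => true) - circles w (fun _ => false)) / 2

end Pool.Agent.Helper1.PB
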