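import Pool.Agent.Helper1.PB.Normal

namespace Pool.Agent.Helper1.PB

/-! ### moves between closed braids -/

lemma SameLink.refl' (x : Σ n : ℕ, List (Fin n)) : SameLink x x := Relation.EqvGen.refl _

lemma SameLink.trans' {x y z : Σ n : ℕ, List (Fin n)} (h : SameLink x y) (h' : SameLink y z) :
    SameLink x z := Relation.EqvGen.trans _ _ _ h h'

lemma BEq.same {n : ℕ} {u v : List (Fin n)} (h : BEq u v) : SameLink ⟨n, u⟩ ⟨n, v⟩ := by
  induction h with
  | rel x y h => exact Relation.EqvGen.rel _ _ (Move.br h)
  | refl x => exact Relation.EqvGen.refl _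
  | symm x y _ ih => exact Relation.EqvGen.symm _ _ ih
  | trans x y z _ _ ih1 ih2 => exact Relation.EqvGen.trans _ _ _ ih1 ih2

lemma same_rot {n : ℕ} (x : List (Fin n)) : ∀ y : List (Fin n),
    SameLink ⟨n, x ++ y⟩ ⟨n, y ++ x⟩ := by
  induction x with
  | nil => intro y; simpa using SameLink.refl' _
  | cons a x ih =>
    intro y
    have h1 : SameLink ⟨n, a :: (x ++ y)⟩ ⟨n, (x ++ y) ++ [a]⟩ :=
      Relation.EqvGen.rel _ _ (Move.rot a (x ++ y))
    have h2 := ih (y ++ [a])
    simp only [List.append_assoc, List.cons_append, List.nil_append] at h1 h2 ⊢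
    exact h1.trans' h2

lemma run_head (n : ℕ) : ∀ r : ℕ, r ≤ n → ∃ t : List (Fin n),
    run n (r + 1) = Fin.last n :: t.map Fin.castSucc := by
  intro r
  induction r with
  | zero => intro _; exact ⟨[], by simp [run, Fin.last]⟩
  | succ r ih =>
    intro hr
    obtain ⟨t, ht⟩ := ih (by omega)
    refine ⟨t ++ [⟨n - (r + 1), by omega⟩], ?_⟩
    rw [run, ht]
    simp

/-- Every positive braid word in which every generator occurs and which is longer than the number
of generators can be moved to a positive braid word with a square. -/
lemma exists_square : ∀ (n : ℕ) (w : List (Fin n)), (∀ i : Fin n, i ∈ w) → w.length ≠ n →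
    ∃ (m : ℕ) (w' : List (Fin m)), m ≤ n ∧ SameLink ⟨n, w⟩ ⟨m, w'⟩ ∧ HasSq w' ∧
      w'.length + n = w.length + m := by
  intro n
  induction n with
  | zero =>
    intro w _ h
    cases w with
    | nil => exact absurd rfl h
    | cons a _ => exact a.elim0
  | succ n ih =>
    intro w hw hl
    rcases normal w with ⟨w', h1, h2⟩ | ⟨u, r, hr, h⟩
    · exact ⟨n + 1, w', le_refl _, h1.same, h2, by rw [h1.len]⟩
    · have hr0 : r ≠ 0 := by
        rintro rfl
        have := (h.mem (Fin.last n)).1 (hw _)
        simp only [run, List.append_nil, List.mem_map] at this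
        obtain ⟨a, _, ha⟩ := this
        exact absurd ha (Fin.castSucc_lt_last a).ne
      obtain ⟨s, rfl⟩ : ∃ s, r = s + 1 := ⟨r - 1, by omega⟩
      obtain ⟨t, ht⟩ := run_head n s (by omega)
      rw [ht] at h
      have hlen : w.length = (t ++ u).length + 1 := by
        rw [h.len]
        simp
        omega
      have hfull : ∀ i : Fin n, i ∈ t ++ u := by
        intro i
        have := (h.mem i.castSucc).1 (hw _)
        rw [List.mem_append, List.mem_cons] at this
        rw [List.mem_append]
        rcases this with h | h | h
        · rw [List.mem_map_of_injective (Fin.castSucc_injective n)] at h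
          exact Or.inr h
        · exact absurd h (Fin.castSucc_lt_last i).ne
        · rw [List.mem_map_of_injective (Fin.castSucc_injective n)] at h
          exact Or.inl h
      obtain ⟨m, w', hm, h1, h2, h3⟩ := ih (t ++ u) hfull (by omega)
      refine ⟨m, w', by omega, ?_, h2, by omega⟩
      have e1 := h.same
      have e2 : SameLink ⟨n + 1, (u.map Fin.castSucc ++ [Fin.last n]) ++ t.map Fin.castSucc⟩
          ⟨n + 1, t.map Fin.castSucc ++ (u.map Fin.castSucc ++ [Fin.last n])⟩ := same_rot _ _
      have e3 : SameLink ⟨n + 1, (t ++ u).map Fin.castSucc ++ [Fin.last n]⟩ ⟨n, t ++ u⟩ :=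
        Relation.EqvGen.rel _ _ (Move.destab _)
      simp only [List.map_append, List.append_assoc, List.cons_append, List.nil_append]
        at e1 e2 e3
      exact ((e1.trans' e2).trans' e3).trans' h1

/-- If the closure is a knot, every generator occurs. -/
lemma IsKnot.full {n : ℕ} {w : List (Fin n)} (h : IsKnot w) (i : Fin n) : i ∈ w := by
  by_contra hi
  have key : ∀ v : List (Fin n), i ∉ v → ∀ x : Fin (n + 1), x.val ≤ i.val →
      (perm v x).val ≤ i.val := by
    intro v
    induction v with
    | nil => intro _ x hx; simpa [perm] using hx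
    | cons a v ih =>
      intro hv x hx
      rw [List.mem_cons, not_or] at hv
      have h1 := ih hv.2 x hx
      have e : perm (a :: v) x = Equiv.swap a.castSucc a.succ (perm v x) := by
        simp [perm]
      rw [e]
      have ha : i.val ≠ a.val := fun h => hv.1 (Fin.ext h)
      by_cases c1 : perm v x = a.castSucc
      · rw [c1, Equiv.swap_apply_left]
        rw [c1] at h1
        simp only [Fin.val_castSucc] at h1
        simp only [Fin.val_succ]
        omega
      · by_cases c2 : perm v x = a.succ
        · rw [c2, Equiv.swap_apply_right]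
          rw [c2] at h1
          simp only [Fin.val_succ] at h1
          simp only [Fin.val_castSucc]
          omega
        · rw [Equiv.swap_apply_of_ne_of_ne c1 c2]
          exact h1
  have key2 : ∀ (k : ℕ) (x : Fin (n + 1)), x.val ≤ i.val → ((perm w ^ k) x).val ≤ i.val := by
    intro k
    induction k with
    | zero => intro x hx; simpa using hx
    | succ k ih =>
      intro x hx
      rw [pow_succ', Equiv.Perm.mul_apply]
      exact key w hi _ (ih x hx)
  obtain ⟨k, hk⟩ := h 0 i.succ
  have := key2 k 0 (by simp)
  rw [hk, Fin.val_succ] at this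
  omega

end Pool.Agent.Helper1.PB
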