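import Pool.Agent.Helper1.PB.Basic

namespace Pool.Agent.Helper1.PB

/-! ### the braid monoid congruence -/

lemma BR.ctx {n : ℕ} {u v : List (Fin n)} (p q : List (Fin n)) (h : BR u v) :
    BR (p ++ u ++ q) (p ++ v ++ q) := by
  cases h with
  | comm a b i j h =>
    have := BR.comm (p ++ a) (b ++ q) i j h
    simpa using this
  | yb a b i j h =>
    have := BR.yb (p ++ a) (b ++ q) i j h
    simpa using this

lemma BEq.ctx {n : ℕ} {u v : List (Fin n)} (p q : List (Fin n)) (h : BEq u v) :
    BEq (p ++ u ++ q) (p ++ v ++ q) := by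
  induction h with
  | rel x y h => exact Relation.EqvGen.rel _ _ (h.ctx p q)
  | refl x => exact Relation.EqvGen.refl _
  | symm x y _ ih => exact Relation.EqvGen.symm _ _ ih
  | trans x y z _ _ ih1 ih2 => exact Relation.EqvGen.trans _ _ _ ih1 ih2

lemma BEq.left {n : ℕ} {u v : List (Fin n)} (p : List (Fin n)) (h : BEq u v) :
    BEq (p ++ u) (p ++ v) := by
  simpa using h.ctx p []

lemma BEq.right {n : ℕ} {u v : List (Fin n)} (q : List (Fin n)) (h : BEq u v) :
    BEq (u ++ q) (v ++ q) := by
  simpa using h.ctx [] q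

lemma BEq.rfl' {n : ℕ} (u : List (Fin n)) : BEq u u := Relation.EqvGen.refl _

lemma BEq.symm' {n : ℕ} {u v : List (Fin n)} (h : BEq u v) : BEq v u :=
  Relation.EqvGen.symm _ _ h

lemma BEq.trans' {n : ℕ} {u v w : List (Fin n)} (h : BEq u v) (h' : BEq v w) : BEq u w :=
  Relation.EqvGen.trans _ _ _ h h'

lemma BR.len {n : ℕ} {u v : List (Fin n)} (h : BR u v) : u.length = v.length := by
  cases h <;> simp

lemma BEq.len {n : ℕ} {u v : List (Fin n)} (h : BEq u v) : u.length = v.length := by
  induction h with
  | rel x y h => exact h.len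
  | refl x => rfl
  | symm x y _ ih => exact ih.symm
  | trans x y z _ _ ih1 ih2 => exact ih1.trans ih2

lemma BR.mem {n : ℕ} {u v : List (Fin n)} (h : BR u v) (a : Fin n) : a ∈ u ↔ a ∈ v := by
  cases h with
  | comm p q i j h => simp only [List.mem_append, List.mem_cons]; tauto
  | yb p q i j h => simp only [List.mem_append, List.mem_cons]; tauto

lemma BEq.mem {n : ℕ} {u v : List (Fin n)} (h : BEq u v) (a : Fin n) : a ∈ u ↔ a ∈ v := by
  induction h with
  | rel x y h => exact h.mem a
  | refl x => rfl
  | symm x y _ ih => exact ih.symm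
  | trans x y z _ _ ih1 ih2 => exact ih1.trans ih2

lemma BR.lift {n : ℕ} {u v : List (Fin n)} (h : BR u v) :
    BR (u.map Fin.castSucc) (v.map Fin.castSucc) := by
  cases h with
  | comm p q i j h =>
    have := BR.comm (p.map Fin.castSucc) (q.map Fin.castSucc) i.castSucc j.castSucc
      (by simpa using h)
    simpa using this
  | yb p q i j h =>
    have := BR.yb (p.map Fin.castSucc) (q.map Fin.castSucc) i.castSucc j.castSucc
      (by simpa using h)
    simpa using this

lemma BEq.lift {n : ℕ} {u v : List (Fin n)} (h : BEq u v) :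
    BEq (u.map Fin.castSucc) (v.map Fin.castSucc) := by
  induction h with
  | rel x y h => exact Relation.EqvGen.rel _ _ h.lift
  | refl x => exact Relation.EqvGen.refl _
  | symm x y _ ih => exact Relation.EqvGen.symm _ _ ih
  | trans x y z _ _ ih1 ih2 => exact Relation.EqvGen.trans _ _ _ ih1 ih2

lemma BEq.commL {n : ℕ} (p q : List (Fin n)) (i j : Fin n)
    (h : i.val + 1 < j.val ∨ j.val + 1 < i.val) :
    BEq (p ++ i :: j :: q) (p ++ j :: i :: q) := Relation.EqvGen.rel _ _ (BR.comm p q i j h)

lemma BEq.ybL {n : ℕ} (p q : List (Fin n)) (i j : Fin n)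
    (h : i.val + 1 = j.val ∨ j.val + 1 = i.val) :
    BEq (p ++ i :: j :: i :: q) (p ++ j :: i :: j :: q) :=
  Relation.EqvGen.rel _ _ (BR.yb p q i j h)

/-! ### runs -/

/-- the run `n, n-1, ..., n-r+1` -/
def run (n : ℕ) : ℕ → List (Fin (n + 1))
  | 0 => []
  | r + 1 => run n r ++ [⟨n - r, by omega⟩]

lemma run_len (n r : ℕ) : (run n r).length = r := by
  induction r with
  | zero => rfl
  | succ r ih => simp [run, ih]

lemma run_comm {n : ℕ} (r : ℕ) (a : Fin (n + 1)) (h : a.val + r < n) :
    BEq (run n r ++ [a]) (a :: run n r) := by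
  induction r with
  | zero => exact BEq.rfl' _
  | succ r ih =>
    have h1 := BEq.commL (run n r) [] ⟨n - r, by omega⟩ a (Or.inr (by simp only; omega))
    have h2 := (ih (by omega)).right [⟨n - r, by omega⟩]
    simp only [run, List.append_assoc, List.singleton_append] at h1 h2 ⊢
    exact h1.trans' h2

lemma run_shift {n : ℕ} (r : ℕ) (hr : r ≤ n + 1) (a : Fin (n + 1)) (h : n + 1 < a.val + r) :
    BEq (run n r ++ [a]) (⟨a.val - 1, by omega⟩ :: run n r) := by
  induction r with
  | zero => have := a.isLt; omega
  | succ r ih =>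
    by_cases h1 : n + 1 < a.val + r
    · have e1 := BEq.commL (run n r) [] ⟨n - r, by omega⟩ a (Or.inl (by simp only; omega))
      have e2 := (ih (by omega) h1).right [⟨n - r, by omega⟩]
      simp only [run, List.append_assoc, List.singleton_append] at e1 e2 ⊢
      exact e1.trans' e2
    · have ha : a.val = n + 1 - r := by omega
      have ha' := a.isLt
      obtain ⟨s, rfl⟩ : ∃ s, r = s + 1 := ⟨r - 1, by omega⟩
      have ea : (⟨n - s, by omega⟩ : Fin (n + 1)) = a := Fin.ext (by simp only; omega)
      have eb : (⟨n - (s + 1), by omega⟩ : Fin (n + 1)) = ⟨a.val - 1, by omega⟩ :=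
        Fin.ext (by simp only; omega)
      have e1 := BEq.ybL (run n s) [] a ⟨a.val - 1, by omega⟩ (Or.inr (by simp only; omega))
      have e2 := (run_comm s (⟨a.val - 1, by omega⟩ : Fin (n + 1)) (by simp only; omega)).right
        [a, ⟨a.val - 1, by omega⟩]
      simp only [run, ea, eb, List.append_assoc, List.cons_append] at e1 e2 ⊢
      exact e1.trans' (by simpa using e2)

/-- a word with two adjacent equal letters -/
def HasSq {n : ℕ} (w : List (Fin n)) : Prop :=
  ∃ (u : List (Fin n)) (i : Fin n) (v : List (Fin n)), w = u ++ i :: i :: v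

lemma HasSq.ctx {n : ℕ} {w : List (Fin n)} (h : HasSq w) (p q : List (Fin n)) :
    HasSq (p ++ w ++ q) := by
  obtain ⟨u, i, v, rfl⟩ := h
  exact ⟨p ++ u, i, v ++ q, by simp⟩

lemma HasSq.lift {n : ℕ} {w : List (Fin n)} (h : HasSq w) : HasSq (w.map Fin.castSucc) := by
  obtain ⟨u, i, v, rfl⟩ := h
  exact ⟨u.map Fin.castSucc, i.castSucc, v.map Fin.castSucc, by simp⟩

lemma normal {n : ℕ} (w : List (Fin (n + 1))) :
    (∃ w', BEq w w' ∧ HasSq w') ∨
      ∃ (u : List (Fin n)) (r : ℕ), r ≤ n + 1 ∧ BEq w (u.map Fin.castSucc ++ run n r) := by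
  induction w using List.reverseRecOn with
  | nil => exact Or.inr ⟨[], 0, by omega, BEq.rfl' _⟩
  | append_singleton w a ih =>
    rcases ih with ⟨w', h1, h2⟩ | ⟨u, r, hr, h⟩
    · exact Or.inl ⟨w' ++ [a], h1.right _, by simpa using h2.ctx [] [a]⟩
    · have h' := h.right [a]
      have ha := a.isLt
      rcases Nat.eq_zero_or_pos r with rfl | hr0
      · by_cases e : a.val = n
        · refine Or.inr ⟨u, 1, by omega, ?_⟩
          have : a = ⟨n - 0, by omega⟩ := Fin.ext (by simpa using e)
          rw [this] at h'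
          simpa [run, this] using h'
        · refine Or.inr ⟨u ++ [⟨a.val, by omega⟩], 0, by omega, ?_⟩
          simpa [run] using h'
      · by_cases e1 : a.val + r = n + 1
        · obtain ⟨s, rfl⟩ : ∃ s, r = s + 1 := ⟨r - 1, by omega⟩
          refine Or.inl ⟨_, h', u.map Fin.castSucc ++ run n s, a, [], ?_⟩
          have : (⟨n - s, by omega⟩ : Fin (n + 1)) = a := Fin.ext (by simp only; omega)
          simp [run, this]
        · by_cases e2 : a.val + r = n
          · refine Or.inr ⟨u, r + 1, by omega, ?_⟩
            have : (⟨n - r, by omega⟩ : Fin (n + 1)) = a := Fin.ext (by simp only; omega)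
            simpa [run, this] using h'
          · by_cases e3 : a.val + r < n
            · refine Or.inr ⟨u ++ [⟨a.val, by omega⟩], r, hr, ?_⟩
              have h3 := (run_comm r a e3).left (u.map Fin.castSucc)
              have : (Fin.castSucc (⟨a.val, by omega⟩ : Fin n)) = a := Fin.ext rfl
              rw [List.append_assoc] at h'
              have h4 := h'.trans' h3
              simpa [this] using h4
            · refine Or.inr ⟨u ++ [⟨a.val - 1, by omega⟩], r, hr, ?_⟩
              have h3 := (run_shift r hr a (by omega)).left (u.map Fin.castSucc)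
              have : (Fin.castSucc (⟨a.val - 1, by omega⟩ : Fin n)) = ⟨a.val - 1, by omega⟩ :=
                Fin.ext rfl
              rw [List.append_assoc] at h'
              have h4 := h'.trans' h3
              simpa [this] using h4

lemma normal_len {n : ℕ} (w : List (Fin n)) :
    (∃ w', BEq w w' ∧ HasSq w') ∨ w.length ≤ n * (n + 1) / 2 := by
  induction n with
  | zero =>
    right
    cases w with
    | nil => simp
    | cons a _ => exact a.elim0
  | succ n ih =>
    rcases normal w with h | ⟨u, r, hr, h⟩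
    · exact Or.inl h
    · rcases ih u with ⟨u', h1, h2⟩ | h1
      · exact Or.inl ⟨_, h.trans' (h1.lift.right (run n r)), by simpa using h2.lift.ctx [] (run n r)⟩
      · right
        rw [h.len, List.length_append, List.length_map, run_len]
        have e : (n + 1) * (n + 1 + 1) = n * (n + 1) + 2 * (n + 1) := by ring
        rw [e, Nat.add_mul_div_left _ _ (by norm_num)]
        omega

/-! ### many disjoint squares -/

/-- `w` contains `k` pairwise disjoint squares -/
def Sq {n : ℕ} : ℕ → List (Fin n) → Prop
  | 0, _ => True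
  | k + 1, w => ∃ (u : List (Fin n)) (i : Fin n) (v : List (Fin n)), w = u ++ i :: i :: v ∧ Sq k v

lemma Sq.left {n : ℕ} {k : ℕ} {w : List (Fin n)} (p : List (Fin n)) (h : Sq k w) :
    Sq k (p ++ w) := by
  cases k with
  | zero => trivial
  | succ k =>
    obtain ⟨u, i, v, rfl, h⟩ := h
    exact ⟨p ++ u, i, v, by simp, h⟩

lemma HasSq.sq {n : ℕ} {w : List (Fin n)} (h : HasSq w) : Sq 1 w := by
  obtain ⟨u, i, v, rfl⟩ := h
  exact ⟨u, i, v, rfl, trivial⟩

lemma many_sq {n : ℕ} (k : ℕ) : ∀ w : List (Fin n), k * (n * (n + 1) / 2 + 1) ≤ w.length →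
    ∃ w', BEq w w' ∧ Sq k w' := by
  induction k with
  | zero => intro w _; exact ⟨w, BEq.rfl' _, trivial⟩
  | succ k ih =>
    intro w hw
    set N := n * (n + 1) / 2 + 1 with hN
    have hw' : k * N + N ≤ w.length := by rw [← Nat.succ_mul]; exact hw
    obtain ⟨z, hz, hz'⟩ := ih (w.drop N) (by rw [List.length_drop]; omega)
    rcases normal_len (w.take N) with ⟨x, h1, u, i, v, rfl⟩ | h1
    · refine ⟨(u ++ i :: i :: v) ++ z, ?_, u, i, v ++ z, by simp, hz'.left v⟩
      have e : w = w.take N ++ w.drop N := (List.take_append_drop N w).symm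
      have := (h1.right (w.drop N)).trans' (hz.left _)
      rwa [← e] at this
    · rw [List.length_take] at h1
      omega

lemma Sq.set {n : ℕ} {k : ℕ} : ∀ {w : List (Fin n)}, Sq k w →
    ∃ S : Finset ℕ, S.card = k ∧ ∀ t ∈ S, t + 1 < w.length ∧ w[t]? = w[t + 1]? ∧ t + 1 ∉ S := by
  induction k with
  | zero => intro w _; exact ⟨∅, rfl, by simp⟩
  | succ k ih =>
    intro w h
    obtain ⟨u, i, v, rfl, h⟩ := h
    obtain ⟨S, hS, hS'⟩ := ih h
    have hinj : Function.Injective (fun t : ℕ => t + (u.length + 2)) := fun a b h => by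
      simp only at h; omega
    refine ⟨insert u.length (S.image fun t => t + (u.length + 2)), ?_, ?_⟩
    · rw [Finset.card_insert_of_notMem, Finset.card_image_of_injective _ hinj, hS]
      rw [Finset.mem_image]
      rintro ⟨t, _, h⟩
      omega
    · intro t ht
      rw [Finset.mem_insert, Finset.mem_image] at ht
      rcases ht with rfl | ⟨s, hs, rfl⟩
      · refine ⟨by simp, ?_, ?_⟩
        · rw [List.getElem?_append_right (le_refl _), List.getElem?_append_right (by omega)]
          simp
        · rw [Finset.mem_insert, Finset.mem_image]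
          rintro (h | ⟨t, _, h⟩)
          · omega
          · omega
      · obtain ⟨h1, h2, h3⟩ := hS' s hs
        refine ⟨?_, ?_, ?_⟩
        · simp only [List.length_append, List.length_cons]; omega
        · rw [List.getElem?_append_right (by omega), List.getElem?_append_right (by omega)]
          have e1 : s + (u.length + 2) - u.length = s + 1 + 1 := by omega
          have e2 : s + (u.length + 2) + 1 - u.length = s + 1 + 1 + 1 := by omega
          rw [e1, e2]
          simpa using h2
        · rw [Finset.mem_insert, Finset.mem_image]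
          rintro (h | ⟨t, ht, h⟩)
          · omega
          · have : t = s + 1 := by omega
            exact h3 (this ▸ ht)

lemma Sq.le_circles {n : ℕ} {k : ℕ} {w : List (Fin n)} (hw : w ≠ []) (h : Sq k w) :
    k + 1 ≤ circles w (fun _ => false) := by
  obtain ⟨S, hS, hS'⟩ := h.set
  let T : Finset (Fin w.length) := S.attachFin (fun t ht => by have := (hS' t ht).1; omega)
  have hT : T.card = k := by rw [Finset.card_attachFin, hS]
  have hnx : ∀ t ∈ T, (nxt t).val = t.val + 1 := by
    intro t ht
    rw [Finset.mem_attachFin] at ht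
    have := (hS' _ ht).1
    simp [nxt, Nat.mod_eq_of_lt this]
  have := circles_horiz w hw T (by
    intro t ht
    have e := hnx t ht
    rw [Finset.mem_attachFin] at ht
    have h2 := (hS' _ ht).2.1
    rw [List.get_eq_getElem, List.get_eq_getElem]
    have h3 : w[t.val]? = w[(nxt t).val]? := by rw [e]; exact h2
    rw [List.getElem?_eq_getElem t.isLt, List.getElem?_eq_getElem (nxt t).isLt] at h3
    exact Option.some.inj h3) (by
    intro t ht h
    have e := hnx t ht
    rw [Finset.mem_attachFin] at ht h
    rw [e] at h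
    exact (hS' _ ht).2.2 h)
  rwa [hT] at this

lemma Sq.genus {n : ℕ} {k : ℕ} {w : List (Fin n)} (hw : w ≠ []) (h : Sq k w) :
    turaevGenus w ≤ ((w.length : ℚ) - n - k) / 2 := by
  have h1 := h.le_circles hw
  have h2 : ((k : ℚ) + 1) ≤ (circles w (fun _ => false) : ℚ) := by exact_mod_cast h1
  unfold turaevGenus
  rw [circles_vert w hw]
  push_cast
  linarith

end Pool.Agent.Helper1.PB
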